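import Mathlib
import Pool.Agent.K4W.StmtsA
import Pool.Agent.Helper14_HUA.Cpl
import Pool.Agent.Helper17_HUA.Kul
import Pool.Agent.Helper94_HUA.Vfa
import Pool.Agent.Helper94_HUA.Maj
import Pool.Agent.Helper69_Weyl.Divisor

/-!
# ABL: quartic sums over one block
-/

set_option autoImplicit false

namespace Pool.Agent.K4W.H39

open Pool.Agent.VM Pool.Agent.Helper69_Weyl
open Finset

theorem block_aux (X j : ℕ) (β η : ℝ) : ‖W 4 (X + j) β η - W 4 X β η‖ ≤ (j : ℝ) := by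
  induction j with
  | zero => simp
  | succ j ih =>
    have h1 : W 4 (X + (j + 1)) β η = W 4 (X + j) β η +
        ee (β * (((X + j + 1 : ℕ)) : ℝ) ^ 4 + η * (((X + j + 1 : ℕ)) : ℝ)) := by
      unfold W
      rw [show X + (j + 1) = X + j + 1 by ring, Finset.sum_Icc_succ_top (by omega)]
    rw [h1]
    calc ‖W 4 (X + j) β η + ee (β * (((X + j + 1 : ℕ)) : ℝ) ^ 4 + η * (((X + j + 1 : ℕ)) : ℝ)) -
          W 4 X β η‖ = ‖(W 4 (X + j) β η - W 4 X β η) +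
            ee (β * (((X + j + 1 : ℕ)) : ℝ) ^ 4 + η * (((X + j + 1 : ℕ)) : ℝ))‖ := by
          congr 1
          ring
      _ ≤ ‖W 4 (X + j) β η - W 4 X β η‖ +
          ‖ee (β * (((X + j + 1 : ℕ)) : ℝ) ^ 4 + η * (((X + j + 1 : ℕ)) : ℝ))‖ := norm_add_le _ _
      _ ≤ (j : ℝ) + 1 := by
          rw [norm_ee]
          linarith
      _ = ((j + 1 : ℕ) : ℝ) := by push_cast; ring

theorem norm_block (X Y : ℕ) (hXY : X ≤ Y) (hY : Y ≤ 2 * X) (β η : ℝ) :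
    ‖W 4 Y β η - W 4 X β η‖ ≤ (X : ℝ) := by
  have h1 := block_aux X (Y - X) β η
  rw [show X + (Y - X) = Y by omega] at h1
  refine h1.trans ?_
  exact_mod_cast (by omega : Y - X ≤ X)

/-- the final arithmetic -/
theorem abl_arith (u e d L ρ a₁ a₂ A B P₁ P₂ P₃ C₀ C₁ C₂ C₃ C₄ : ℝ)
    (hu : 0 < u) (he : 1 ≤ e) (hd0 : 0 ≤ d) (hd : d ≤ C₃ * e) (hL0 : 0 ≤ L) (hL : L ≤ C₄ * e)
    (hC₀ : 0 < C₀) (hC₁ : 0 < C₁) (hC₂ : 0 < C₂) (hC₃ : 0 < C₃) (hC₄ : 0 < C₄)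
    (hP₁ : 0 ≤ P₁) (hP₂ : 0 ≤ P₂) (hP₃ : 0 ≤ P₃)
    (h2 : ρ * a₂ * A ≤ 256 * C₀ * C₂ * e * P₂) (h1 : a₁ * A ≤ u * e * C₁ * (1 + 2 * C₀) * P₁)
    (h3 : a₂ = C₂ * e * P₃)
    (hB : u * B ≤ d * (2 * ρ * u * a₂ * A + 5 * a₁ * A + 24 * u * a₂ * L)) :
    B ≤ C₃ * (512 * C₀ * C₂ + 5 * C₁ * (1 + 2 * C₀) + 24 * C₂ * C₄) * e ^ 4 *
      (P₁ + P₂ + P₃) := by
  have he0 : 0 < e := by linarith
  have ee2 : e ≤ e ^ 2 := by nlinarith
  have ee3 : e ^ 3 ≤ e ^ 4 := by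
    have : 0 < e ^ 3 := by positivity
    nlinarith
  have t1 : 2 * ρ * u * a₂ * A ≤ u * (e ^ 2 * (512 * C₀ * C₂ * P₂)) := by
    calc 2 * ρ * u * a₂ * A = 2 * u * (ρ * a₂ * A) := by ring
      _ ≤ 2 * u * (256 * C₀ * C₂ * e * P₂) := by gcongr
      _ = u * (e * (512 * C₀ * C₂ * P₂)) := by ring
      _ ≤ u * (e ^ 2 * (512 * C₀ * C₂ * P₂)) := by gcongr
  have t2 : 5 * a₁ * A ≤ u * (e ^ 2 * (5 * C₁ * (1 + 2 * C₀) * P₁)) := by
    calc 5 * a₁ * A = 5 * (a₁ * A) := by ring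
      _ ≤ 5 * (u * e * C₁ * (1 + 2 * C₀) * P₁) := by gcongr
      _ = u * (e * (5 * C₁ * (1 + 2 * C₀) * P₁)) := by ring
      _ ≤ u * (e ^ 2 * (5 * C₁ * (1 + 2 * C₀) * P₁)) := by gcongr
  have t3 : 24 * u * a₂ * L ≤ u * (e ^ 2 * (24 * C₂ * C₄ * P₃)) := by
    rw [h3]
    calc 24 * u * (C₂ * e * P₃) * L ≤ 24 * u * (C₂ * e * P₃) * (C₄ * e) := by gcongr
      _ = u * (e ^ 2 * (24 * C₂ * C₄ * P₃)) := by ring
  set K : ℝ := 512 * C₀ * C₂ + 5 * C₁ * (1 + 2 * C₀) + 24 * C₂ * C₄ with hK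
  have k1 : 5 * C₁ * (1 + 2 * C₀) ≤ K := by
    rw [hK]
    have : 0 < C₀ * C₂ := by positivity
    have : 0 < C₂ * C₄ := by positivity
    linarith
  have k2 : 512 * C₀ * C₂ ≤ K := by
    rw [hK]
    have : 0 < 5 * C₁ * (1 + 2 * C₀) := by positivity
    have : 0 < C₂ * C₄ := by positivity
    linarith
  have k3 : 24 * C₂ * C₄ ≤ K := by
    rw [hK]
    have : 0 < 5 * C₁ * (1 + 2 * C₀) := by positivity
    have : 0 < C₀ * C₂ := by positivity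
    linarith
  have hK0 : 0 < K := by positivity
  have t4 : 2 * ρ * u * a₂ * A + 5 * a₁ * A + 24 * u * a₂ * L ≤
      u * (e ^ 2 * (K * (P₁ + P₂ + P₃))) := by
    have s1 : 5 * C₁ * (1 + 2 * C₀) * P₁ ≤ K * P₁ := by gcongr
    have s2 : 512 * C₀ * C₂ * P₂ ≤ K * P₂ := by gcongr
    have s3 : 24 * C₂ * C₄ * P₃ ≤ K * P₃ := by gcongr
    calc 2 * ρ * u * a₂ * A + 5 * a₁ * A + 24 * u * a₂ * L
        ≤ u * (e ^ 2 * (512 * C₀ * C₂ * P₂)) + u * (e ^ 2 * (5 * C₁ * (1 + 2 * C₀) * P₁)) +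
          u * (e ^ 2 * (24 * C₂ * C₄ * P₃)) := by linarith
      _ ≤ u * (e ^ 2 * (K * P₂)) + u * (e ^ 2 * (K * P₁)) + u * (e ^ 2 * (K * P₃)) := by gcongr
      _ = u * (e ^ 2 * (K * (P₁ + P₂ + P₃))) := by ring
  have t5 : u * B ≤ u * (C₃ * K * e ^ 4 * (P₁ + P₂ + P₃)) := by
    calc u * B ≤ d * (2 * ρ * u * a₂ * A + 5 * a₁ * A + 24 * u * a₂ * L) := hB
      _ ≤ d * (u * (e ^ 2 * (K * (P₁ + P₂ + P₃)))) := by gcongr
      _ ≤ (C₃ * e) * (u * (e ^ 2 * (K * (P₁ + P₂ + P₃)))) := by gcongr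
      _ = u * (C₃ * K * e ^ 3 * (P₁ + P₂ + P₃)) := by ring
      _ ≤ u * (C₃ * K * e ^ 4 * (P₁ + P₂ + P₃)) := by gcongr
  exact le_of_mul_le_mul_left t5 hu

theorem abl (asc : AscStmt) (ahu : AhuStmt) (avd : AvdStmt) (agc : AgcStmt) (asp : AspStmt) :
    AblStmt := by
  intro ε hε
  have hε4 : 0 < ε / 4 := by linarith
  obtain ⟨C₂, hC₂, h2⟩ := asc (ε / 4) hε4
  obtain ⟨C₁, hC₁, h1⟩ := ahu (ε / 4) hε4
  obtain ⟨C₀, hC₀, h0⟩ := avd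
  obtain ⟨C₃, hC₃, h3⟩ := exists_card_divisors_le (ε / 4) hε4
  obtain ⟨C₄, hC₄, h4⟩ := H94.one_add_log_le (ε / 4) hε4
  have hC₃0 : 0 < C₃ := by linarith
  refine ⟨C₃ * (512 * C₀ * C₂ + 5 * C₁ * (1 + 2 * C₀) + 24 * C₂ * C₄), by positivity, ?_⟩
  intro X Y u b β ξ M hX hXY hY hu hb hM
  have hX1 : (1 : ℝ) ≤ X := by exact_mod_cast hX
  have hX0 : (0 : ℝ) < X := by linarith
  have hu1 : (1 : ℝ) ≤ u := by exact_mod_cast hu
  have hu0 : (0 : ℝ) < u := by linarith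
  have hYX : (Y : ℝ) ≤ 2 * X := by exact_mod_cast hY
  have hY1 : 1 ≤ Y := by omega
  set e : ℝ := (u : ℝ) ^ (ε / 4) with he
  have he1 : 1 ≤ e := Real.one_le_rpow hu1 hε4.le
  have he0 : 0 < e := by linarith
  have heps : (u : ℝ) ^ ε = e ^ 4 := by
    rw [he, ← Real.rpow_natCast, ← Real.rpow_mul hu0.le]
    congr 1
    push_cast
    ring
  have hM0 : 0 ≤ M := by
    rcases hM with h | ⟨_, h⟩
    · linarith
    · exact le_trans (by positivity) h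
  set w : ℕ → ℝ := fun m => ‖Sc 4 u b (m : ℤ)‖ with hw
  set F : ℕ → ℝ := fun m => ‖W 4 Y β (ξ - (m : ℝ) / (u : ℝ)) - W 4 X β (ξ - (m : ℝ) / (u : ℝ))‖
    with hF
  set a₁ : ℝ := C₁ * (u * (u : ℝ) ^ (-(1 / 4) : ℝ)) * e with ha₁
  set a₂ : ℝ := C₂ * e * √(u : ℝ) with ha₂
  have ha₁0 : 0 ≤ a₁ := by positivity
  have ha₂0 : 0 ≤ a₂ := by positivity
  have hw0 : ∀ m, 0 ≤ w m := fun m => norm_nonneg _
  have hF0 : ∀ m, 0 ≤ F m := fun m => norm_nonneg _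
  have hw1 : ∀ m, w m ≤ a₁ := by
    intro m
    have h5 := h1 u b (m : ℤ) hu hb
    have h6 : (u : ℝ) ^ (1 - 1 / ((4 : ℕ) : ℝ) + ε / 4) = (u * (u : ℝ) ^ (-(1 / 4) : ℝ)) * e := by
      rw [he, Real.rpow_add hu0]
      congr 1
      nth_rewrite 2 [← Real.rpow_one (u : ℝ)]
      rw [← Real.rpow_add hu0]
      norm_num
    rw [h6] at h5
    calc w m ≤ C₁ * ((u * (u : ℝ) ^ (-(1 / 4) : ℝ)) * e) := h5
      _ = a₁ := by rw [ha₁]; ring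
  have hw2 : ∀ m, w m ≤ a₂ * (Nat.gcd m u : ℝ) := by
    intro m
    have h5 := h2 u b (m : ℤ) hu hb
    have h6 : (u : ℝ) ^ (1 / 2 + ε / 4) = √(u : ℝ) * e := by
      rw [he, Real.rpow_add hu0, Real.sqrt_eq_rpow]
    rw [h6, Int.gcd_natCast_natCast] at h5
    calc w m ≤ C₂ * (√(u : ℝ) * e) * (Nat.gcd m u : ℝ) := h5
      _ = a₂ * (Nat.gcd m u : ℝ) := by rw [ha₂]; ring
  -- completion
  set B : ℝ := ‖W 4 Y ((b : ℝ) / (u : ℝ) + β) ξ - W 4 X ((b : ℝ) / (u : ℝ) + β) ξ‖ with hB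
  have hcomp : (u : ℝ) * B ≤ ∑ m ∈ range u, w m * F m := by
    have h5 := H14.cpl 4 Y u b β ξ hu
    have h6 := H14.cpl 4 X u b β ξ hu
    have h7 : (u : ℂ) * (W 4 Y ((b : ℝ) / (u : ℝ) + β) ξ - W 4 X ((b : ℝ) / (u : ℝ) + β) ξ) =
        ∑ m ∈ range u, Sc 4 u b (m : ℤ) *
          (W 4 Y β (ξ - (m : ℝ) / (u : ℝ)) - W 4 X β (ξ - (m : ℝ) / (u : ℝ))) := by
      rw [mul_sub, h5, h6, ← Finset.sum_sub_distrib]
      refine Finset.sum_congr rfl fun m _ => ?_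
      ring
    have h8 : (u : ℝ) * B =
        ‖(u : ℂ) * (W 4 Y ((b : ℝ) / (u : ℝ) + β) ξ - W 4 X ((b : ℝ) / (u : ℝ) + β) ξ)‖ := by
      rw [norm_mul, Complex.norm_natCast]
    rw [h8, h7]
    refine (norm_sum_le _ _).trans (Finset.sum_le_sum fun m _ => ?_)
    rw [norm_mul]
  -- the divisors and the logarithm
  have hd : ((u.divisors.card : ℕ) : ℝ) ≤ C₃ * e := h3 u (by omega)
  have hL := h4 u hu
  have hlog : 0 ≤ Real.log u := Real.log_nonneg hu1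
  have hsq : √((u : ℝ) * |β|) = √(u : ℝ) * √|β| := Real.sqrt_mul (by positivity) _
  rw [heps, hsq]
  set s : ℝ := √|β| with hs
  have hs0 : 0 ≤ s := Real.sqrt_nonneg _
  have hss : s * s = |β| := Real.mul_self_sqrt (abs_nonneg β)
  have hsu0 : 0 ≤ √(u : ℝ) := Real.sqrt_nonneg _
  rcases le_or_gt (|β| * (X : ℝ) ^ 3) 1 with hcase | hcase
  · -- the first case
    obtain ⟨A, hA0, hAF, hAM, hAρ⟩ : ∃ A : ℝ, 0 ≤ A ∧ (∀ m, F m ≤ A) ∧ A ≤ (1 + 2 * C₀) * M ∧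
        (128 * |β| * (X : ℝ) ^ 3) * A ≤ 256 * C₀ * (s * (X : ℝ) ^ 2) := by
      by_cases hβ : β = 0
      · refine ⟨X, hX0.le, fun m => norm_block X Y hXY hY _ _, ?_, ?_⟩
        · rcases hM with h | ⟨h, _⟩
          · nlinarith
          · exact absurd hβ h
        · have hs1 : s = 0 := by rw [hs, hβ]; simp
          rw [hβ, hs1]
          simp
      · have hβ0 : 0 < |β| := abs_pos.2 hβ
        have hs1 : 0 < s := Real.sqrt_pos.2 hβ0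
        have hA2 : ∀ m, F m ≤ 2 * C₀ * (1 / (s * (X : ℝ))) := by
          intro m
          have h5 := h0 X Y β (ξ - (m : ℝ) / (u : ℝ)) hX hXY hY hβ
          have h6 : s * (X : ℝ) ^ 2 ≤ 1 / (s * (X : ℝ)) := by
            rw [le_div_iff₀ (by positivity)]
            calc s * (X : ℝ) ^ 2 * (s * (X : ℝ)) = (s * s) * (X : ℝ) ^ 3 := by ring
              _ = |β| * (X : ℝ) ^ 3 := by rw [hss]
              _ ≤ 1 := hcase
          calc F m ≤ C₀ * (s * (X : ℝ) ^ 2 + 1 / (s * (X : ℝ))) := h5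
            _ ≤ C₀ * (1 / (s * (X : ℝ)) + 1 / (s * (X : ℝ))) := by gcongr
            _ = 2 * C₀ * (1 / (s * (X : ℝ))) := by ring
        refine ⟨min (X : ℝ) (2 * C₀ * (1 / (s * (X : ℝ)))), le_min hX0.le (by positivity),
          fun m => le_min (norm_block X Y hXY hY _ _) (hA2 m), ?_, ?_⟩
        · rcases hM with h | ⟨_, h⟩
          · calc min (X : ℝ) (2 * C₀ * (1 / (s * (X : ℝ)))) ≤ X := min_le_left _ _
              _ ≤ M := h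
              _ ≤ (1 + 2 * C₀) * M := by nlinarith
          · calc min (X : ℝ) (2 * C₀ * (1 / (s * (X : ℝ)))) ≤ 2 * C₀ * (1 / (s * (X : ℝ))) :=
                  min_le_right _ _
              _ ≤ 2 * C₀ * M := by gcongr
              _ ≤ (1 + 2 * C₀) * M := by nlinarith
        · calc (128 * |β| * (X : ℝ) ^ 3) * min (X : ℝ) (2 * C₀ * (1 / (s * (X : ℝ))))
              ≤ (128 * |β| * (X : ℝ) ^ 3) * (2 * C₀ * (1 / (s * (X : ℝ)))) := by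
                gcongr
                exact min_le_right _ _
            _ = 256 * C₀ * (s * (X : ℝ) ^ 2) := by
                rw [← hss]
                field_simp
                ring
    set ρ : ℝ := 128 * |β| * (X : ℝ) ^ 3 with hρ
    have hρ0 : 0 ≤ ρ := by positivity
    have hρY : ∀ n : ℕ, (n : ℝ) ≤ 2 * X → 2 ^ 4 * |β| * (n : ℝ) ^ (4 - 1) ≤ ρ := by
      intro n hn
      have h5 : (n : ℝ) ^ (4 - 1) ≤ (2 * (X : ℝ)) ^ (4 - 1) := by gcongr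
      calc 2 ^ 4 * |β| * (n : ℝ) ^ (4 - 1) ≤ 2 ^ 4 * |β| * (2 * (X : ℝ)) ^ (4 - 1) := by gcongr
        _ = ρ := by rw [hρ]; norm_num; ring
    have hvfa : ∀ m < u, ∀ δ : ℝ, 0 < δ → δ ≤ 1 / 2 →
        (∀ z : ℤ, δ + ρ ≤ |ξ - (m : ℝ) / (u : ℝ) - (z : ℝ)|) → F m ≤ 6 / δ := by
      intro m _ δ hδ hδ2 hz
      have h5 := H94.vfa 4 (by norm_num) H17.kul Y β (ξ - (m : ℝ) / (u : ℝ)) δ hY1 hδ hδ2
        (fun z => le_trans (add_le_add le_rfl (hρY Y hYX)) (hz z))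
      have h6 := H94.vfa 4 (by norm_num) H17.kul X β (ξ - (m : ℝ) / (u : ℝ)) δ hX hδ hδ2
        (fun z => le_trans (add_le_add le_rfl (hρY X (by linarith))) (hz z))
      calc F m ≤ ‖W 4 Y β (ξ - (m : ℝ) / (u : ℝ))‖ + ‖W 4 X β (ξ - (m : ℝ) / (u : ℝ))‖ :=
            norm_sub_le _ _
        _ ≤ 3 / δ + 3 / δ := by linarith
        _ = 6 / δ := by ring
    have h8 := asp u ξ ρ A a₁ a₂ w F hu hρ0 hA0 ha₁0 ha₂0 (fun m _ => ⟨hF0 m, hAF m⟩)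
      (fun m _ => ⟨hw0 m, hw1 m, hw2 m⟩) hvfa
    have h9 := hcomp.trans h8
    refine (abl_arith (u : ℝ) e (u.divisors.card : ℝ) (1 + Real.log u) ρ a₁ a₂ A B
      ((u : ℝ) ^ (-(1 / 4) : ℝ) * M) (√(u : ℝ) * s * (X : ℝ) ^ 2) (√(u : ℝ)) C₀ C₁ C₂ C₃ C₄ hu0 he1
      (by positivity) hd (by linarith) hL hC₀ hC₁ hC₂ hC₃0 hC₄ (by positivity) (by positivity)
      hsu0 ?_ ?_ rfl h9)
    · calc ρ * a₂ * A = a₂ * (ρ * A) := by ring
        _ ≤ a₂ * (256 * C₀ * (s * (X : ℝ) ^ 2)) := by gcongr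
        _ = 256 * C₀ * C₂ * e * (√(u : ℝ) * s * (X : ℝ) ^ 2) := by rw [ha₂]; ring
    · calc a₁ * A ≤ a₁ * ((1 + 2 * C₀) * M) := by gcongr
        _ = (u : ℝ) * e * C₁ * (1 + 2 * C₀) * ((u : ℝ) ^ (-(1 / 4) : ℝ) * M) := by rw [ha₁]; ring
  · -- the second case
    have hβ : β ≠ 0 := by
      intro h
      rw [h] at hcase
      simp at hcase
      linarith
    have hβ0 : 0 < |β| := abs_pos.2 hβ
    have hs1 : 0 < s := Real.sqrt_pos.2 hβ0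
    set A : ℝ := 2 * C₀ * (s * (X : ℝ) ^ 2) with hA
    have hA0 : 0 ≤ A := by positivity
    have hAF : ∀ m, F m ≤ A := by
      intro m
      have h5 := h0 X Y β (ξ - (m : ℝ) / (u : ℝ)) hX hXY hY hβ
      have h6 : 1 / (s * (X : ℝ)) ≤ s * (X : ℝ) ^ 2 := by
        rw [div_le_iff₀ (by positivity)]
        calc (1 : ℝ) ≤ |β| * (X : ℝ) ^ 3 := hcase.le
          _ = (s * s) * (X : ℝ) ^ 3 := by rw [hss]
          _ = s * (X : ℝ) ^ 2 * (s * (X : ℝ)) := by ring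
      calc F m ≤ C₀ * (s * (X : ℝ) ^ 2 + 1 / (s * (X : ℝ))) := h5
        _ ≤ C₀ * (s * (X : ℝ) ^ 2 + s * (X : ℝ) ^ 2) := by gcongr
        _ = A := by rw [hA]; ring
    have h7 : ∑ m ∈ range u, w m * F m ≤ (A * a₂) * ∑ m ∈ range u, (Nat.gcd m u : ℝ) := by
      rw [Finset.mul_sum]
      refine Finset.sum_le_sum fun m _ => ?_
      calc w m * F m ≤ (a₂ * (Nat.gcd m u : ℝ)) * A :=
            mul_le_mul (hw2 m) (hAF m) (hF0 m) (by positivity)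
        _ = (A * a₂) * (Nat.gcd m u : ℝ) := by ring
    have h8 : (A * a₂) * ∑ m ∈ range u, (Nat.gcd m u : ℝ) ≤
        (A * a₂) * ((u : ℝ) * (u.divisors.card : ℝ)) :=
      mul_le_mul_of_nonneg_left (agc u hu) (by positivity)
    have h9 : (u : ℝ) * B ≤ (u.divisors.card : ℝ) *
        (2 * (1 / 2) * u * a₂ * A + 5 * 0 * A + 24 * u * a₂ * 0) := by
      calc (u : ℝ) * B ≤ (A * a₂) * ((u : ℝ) * (u.divisors.card : ℝ)) := hcomp.trans (h7.trans h8)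
        _ = _ := by ring
    refine (abl_arith (u : ℝ) e (u.divisors.card : ℝ) 0 (1 / 2) 0 a₂ A B
      ((u : ℝ) ^ (-(1 / 4) : ℝ) * M) (√(u : ℝ) * s * (X : ℝ) ^ 2) (√(u : ℝ)) C₀ C₁ C₂ C₃ C₄ hu0 he1
      (by positivity) hd le_rfl (by positivity) hC₀ hC₁ hC₂ hC₃0 hC₄ (by positivity) (by positivity)
      hsu0 ?_ ?_ rfl h9)
    · calc 1 / 2 * a₂ * A = C₀ * C₂ * e * (√(u : ℝ) * s * (X : ℝ) ^ 2) := by rw [ha₂, hA]; ring
        _ ≤ 256 * (C₀ * C₂ * e * (√(u : ℝ) * s * (X : ℝ) ^ 2)) := by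
            have : 0 ≤ C₀ * C₂ * e * (√(u : ℝ) * s * (X : ℝ) ^ 2) := by positivity
            linarith
        _ = 256 * C₀ * C₂ * e * (√(u : ℝ) * s * (X : ℝ) ^ 2) := by ring
    · rw [zero_mul]
      positivity

end Pool.Agent.K4W.H39
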