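import Mathlib
import Pool.Agent.K4W.StmtsA

/-!
# ACS: case A
-/

set_option autoImplicit false

namespace Pool.Agent.K4W.H39

open Pool.Agent.VM Pool.Agent.Helper69_Weyl

theorem acs (amj : AmjStmt) : AcsStmt := by
  intro ε hε
  obtain ⟨C, hC0, hC⟩ := amj (ε / 2) (by linarith)
  refine ⟨C * 2 ^ (ε / 2) * 2, by positivity, ?_⟩
  intro N u b t ξ V hN hu hb hfar huV huT hVN
  have hN1 : (1 : ℝ) ≤ N := by exact_mod_cast hN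
  have hN0 : (0 : ℝ) < N := by linarith
  have hu1 : (1 : ℝ) ≤ u := by exact_mod_cast hu
  have h1 := hC N u b t ξ hN hu hb
  have hF := hfar b u hu hb
  set T : ℝ := (N : ℝ) ^ 4 * |t - (b : ℝ) / (u : ℝ)| with hT
  set U : ℝ := (u : ℝ) * (1 + T) with hU
  have hV0 : 0 < V := by linarith
  have hU2 : U ≤ 2 * V := by
    have : U = u + u * T := by rw [hU]; ring
    rw [this]
    linarith
  have hU0 : 0 < U := by linarith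
  -- the factor
  have h2 : ((N : ℝ) + (u : ℝ)) ^ (ε / 2) ≤ 2 ^ (ε / 2) * (N : ℝ) ^ ε := by
    have h3 : (N : ℝ) + (u : ℝ) ≤ 2 * (N : ℝ) ^ (2 : ℕ) := by nlinarith
    calc ((N : ℝ) + (u : ℝ)) ^ (ε / 2) ≤ (2 * (N : ℝ) ^ (2 : ℕ)) ^ (ε / 2) :=
          Real.rpow_le_rpow (by positivity) h3 (by linarith)
      _ = 2 ^ (ε / 2) * ((N : ℝ) ^ (2 : ℕ)) ^ (ε / 2) :=
          Real.mul_rpow (by norm_num) (by positivity)
      _ = 2 ^ (ε / 2) * (N : ℝ) ^ ε := by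
          rw [← Real.rpow_natCast (N : ℝ) 2, ← Real.rpow_mul hN0.le]
          congr 2
          push_cast
          ring
  have h4 : (N : ℝ) * U ^ (-(1 / 4) : ℝ) ≤ 2 * (N : ℝ) ^ (3 / 4 : ℝ) := by
    have h5 : U ^ (-(1 / 4) : ℝ) ≤ ((N : ℝ) / 2) ^ (-(1 / 4) : ℝ) :=
      Real.rpow_le_rpow_of_nonpos (by positivity) hF (by norm_num)
    have h6 : ((N : ℝ) / 2) ^ (-(1 / 4) : ℝ) = (N : ℝ) ^ (-(1 / 4) : ℝ) * 2 ^ (1 / 4 : ℝ) := by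
      rw [Real.div_rpow hN0.le (by norm_num), Real.rpow_neg (by norm_num : (0 : ℝ) ≤ 2),
        div_inv_eq_mul]
    have h7 : (2 : ℝ) ^ (1 / 4 : ℝ) ≤ 2 := by
      calc (2 : ℝ) ^ (1 / 4 : ℝ) ≤ (2 : ℝ) ^ (1 : ℝ) :=
            Real.rpow_le_rpow_of_exponent_le (by norm_num) (by norm_num)
        _ = 2 := Real.rpow_one 2
    have h8 : (N : ℝ) * (N : ℝ) ^ (-(1 / 4) : ℝ) = (N : ℝ) ^ (3 / 4 : ℝ) := by
      nth_rewrite 1 [← Real.rpow_one (N : ℝ)]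
      rw [← Real.rpow_add hN0]
      norm_num
    calc (N : ℝ) * U ^ (-(1 / 4) : ℝ) ≤ (N : ℝ) * ((N : ℝ) ^ (-(1 / 4) : ℝ) * 2 ^ (1 / 4 : ℝ)) := by
          rw [← h6]
          gcongr
      _ = (N : ℝ) ^ (3 / 4 : ℝ) * 2 ^ (1 / 4 : ℝ) := by rw [← h8]; ring
      _ ≤ (N : ℝ) ^ (3 / 4 : ℝ) * 2 := by gcongr
      _ = 2 * (N : ℝ) ^ (3 / 4 : ℝ) := by ring
  have h9 : √U ≤ 2 * √V := by
    have h10 : √U ≤ √(2 ^ 2 * V) := by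
      apply Real.sqrt_le_sqrt
      linarith
    have h11 : √(2 ^ 2 * V) = 2 * √V := by
      rw [Real.sqrt_mul (by norm_num), Real.sqrt_sq (by norm_num)]
    rw [h11] at h10
    exact h10
  calc ‖W 4 N t ξ‖ ≤ C * ((N : ℝ) + (u : ℝ)) ^ (ε / 2) * ((N : ℝ) * U ^ (-(1 / 4) : ℝ) + √U) := h1
    _ ≤ C * (2 ^ (ε / 2) * (N : ℝ) ^ ε) * (2 * (N : ℝ) ^ (3 / 4 : ℝ) + 2 * √V) := by gcongr
    _ = C * 2 ^ (ε / 2) * 2 * (N : ℝ) ^ ε * ((N : ℝ) ^ (3 / 4 : ℝ) + √V) := by ring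

end Pool.Agent.K4W.H39
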