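import Mathlib
import Pool.Agent.K4W.StmtsA
import Pool.Agent.Helper20_HUA.Hmt
import Pool.Agent.Helper2_HUA.Ome

/-!
# ASC: complete quartic sums, all moduli
-/

set_option autoImplicit false

namespace Pool.Agent.K4W.H39

open Pool.Agent.VM Pool.Agent.Helper69_Weyl

theorem sc4_omega (C : ℝ) (hC : 1 ≤ C)
    (hp : ∀ (p e : ℕ) (b m : ℤ), p.Prime → ¬ (p : ℤ) ∣ b →
      ‖Sc 4 (p ^ e) b m‖ ≤ C * √((p : ℝ) ^ e) * (Int.gcd m ((p ^ e : ℕ) : ℤ) : ℝ)) (u : ℕ) :
    1 ≤ u → ∀ (b m : ℤ), Int.gcd b (u : ℤ) = 1 →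
      ‖Sc 4 u b m‖ ≤ C ^ (u.primeFactors.card) * √(u : ℝ) * (Int.gcd m (u : ℤ) : ℝ) := by
  induction u using Nat.recOnPosPrimePosCoprime with
  | zero => intro h; omega
  | one =>
    intro _ b m _
    have h1 : ‖Sc 4 1 b m‖ ≤ 1 := by
      unfold Sc
      calc _ ≤ ∑ x ∈ Finset.range 1, ‖ee (((b * (x : ℤ) ^ 4 + m * (x : ℤ) : ℤ) : ℝ) / ((1 : ℕ) : ℝ))‖ :=
            norm_sum_le _ _
        _ = 1 := by rw [Finset.sum_range_one, norm_ee]
    rw [Nat.primeFactors_one, Finset.card_empty, pow_zero, Nat.cast_one, Real.sqrt_one]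
    have h2 : Int.gcd m ((1 : ℕ) : ℤ) = 1 := by simp
    rw [h2]
    simpa using h1
  | prime_pow p n hpp hn =>
    intro _ b m hb
    have h1 : ¬ (p : ℤ) ∣ b := by
      intro hd
      have h2 : (p : ℤ) ∣ ((p ^ n : ℕ) : ℤ) := by
        push_cast
        exact dvd_pow_self _ (by omega)
      have h3 := Int.dvd_coe_gcd hd h2
      rw [hb] at h3
      have h4 : p ∣ 1 := by exact_mod_cast h3
      exact hpp.one_lt.ne' (Nat.dvd_one.1 h4)
    rw [Nat.primeFactors_prime_pow (by omega) hpp, Finset.card_singleton, pow_one]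
    have h5 := hp p n b m hpp h1
    rw [show ((p ^ n : ℕ) : ℝ) = (p : ℝ) ^ n by push_cast; rfl]
    exact h5
  | coprime v w hv hw hvw ihv ihw =>
    intro _ b m hb
    have hgv : Int.gcd (b * (w : ℤ) ^ (4 - 1)) v = 1 := by
      rw [← Int.isCoprime_iff_gcd_eq_one] at hb ⊢
      push_cast at hb
      have h1 : IsCoprime b (v : ℤ) := IsCoprime.of_mul_right_left hb
      have h2 : IsCoprime (w : ℤ) (v : ℤ) := (Nat.isCoprime_iff_coprime.2 hvw).symm
      exact IsCoprime.mul_left h1 (IsCoprime.pow_left h2)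
    have hgw : Int.gcd (b * (v : ℤ) ^ (4 - 1)) w = 1 := by
      rw [← Int.isCoprime_iff_gcd_eq_one] at hb ⊢
      push_cast at hb
      have h1 : IsCoprime b (w : ℤ) := IsCoprime.of_mul_right_right hb
      have h2 : IsCoprime (v : ℤ) (w : ℤ) := Nat.isCoprime_iff_coprime.2 hvw
      exact IsCoprime.mul_left h1 (IsCoprime.pow_left h2)
    rw [H20.hmt 4 v w b m (by norm_num) (by omega) (by omega) hvw, norm_mul]
    have h1 := ihv (by omega) _ m hgv
    have h2 := ihw (by omega) _ m hgw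
    have hcard : (v * w).primeFactors.card = v.primeFactors.card + w.primeFactors.card := by
      rw [hvw.primeFactors_mul, Finset.card_union_of_disjoint hvw.disjoint_primeFactors]
    have hgm : Int.gcd m ((v * w : ℕ) : ℤ) = Int.gcd m (v : ℤ) * Int.gcd m (w : ℤ) := by
      have h3 := Nat.Coprime.gcd_mul m.natAbs hvw
      exact h3
    rw [hgm, hcard, pow_add, Nat.cast_mul v w, Real.sqrt_mul (by positivity),
      Nat.cast_mul (Int.gcd m (v : ℤ)) (Int.gcd m (w : ℤ))]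
    calc _ ≤ (C ^ v.primeFactors.card * √(v : ℝ) * (Int.gcd m (v : ℤ) : ℝ)) *
          (C ^ w.primeFactors.card * √(w : ℝ) * (Int.gcd m (w : ℤ) : ℝ)) :=
          mul_le_mul h1 h2 (norm_nonneg _) (by positivity)
      _ = _ := by ring

theorem asc (app : AppStmt) : AscStmt := by
  intro ε hε
  obtain ⟨C, hC1, hC⟩ := app
  obtain ⟨C', hC'0, hC'⟩ := H2.ome C ε hC1 hε
  refine ⟨C', hC'0, fun u b m hu hb => ?_⟩
  have hu0 : (0 : ℝ) < (u : ℝ) := by exact_mod_cast hu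
  have h1 := sc4_omega C hC1 hC u hu b m hb
  have h2 : √(u : ℝ) = (u : ℝ) ^ (1 / 2 : ℝ) := Real.sqrt_eq_rpow _
  calc ‖Sc 4 u b m‖ ≤ C ^ (u.primeFactors.card) * √(u : ℝ) * (Int.gcd m (u : ℤ) : ℝ) := h1
    _ ≤ (C' * (u : ℝ) ^ ε) * √(u : ℝ) * (Int.gcd m (u : ℤ) : ℝ) := by
        have h3 := hC' u hu
        gcongr
    _ = C' * (u : ℝ) ^ (1 / 2 + ε) * (Int.gcd m (u : ℤ) : ℝ) := by
        rw [h2, mul_assoc C', ← Real.rpow_add hu0, add_comm ε]

end Pool.Agent.K4W.H39
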